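import Pool.Agent.J4H84.GT.Count

/-!
# MP_b5066f_al: the Gelfand-Tsetlin degree of the Verma module `M(-ρ)`

We prove that for every `n ≥ 2` the Gelfand-Tsetlin degree of the Verma module `M(-ρ)` over
`gl(n)` is `(n-1)! (n-2)! ⋯ 1!` (full affirmative answer to Q1).  The same value is obtained for
every Verma module whose highest weight has integral differences, and it is an upper bound for
all Verma modules.

Definitions used (in `Pool.Agent.J4H84.GT`):
* `gl n`: the `n × n` complex matrices with the commutator bracket, `U n`: its universal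
  enveloping algebra, `E i j`: the image of the elementary matrix;
* `incl h : U m →ₐ[ℂ] U n` (`m ≤ n`): the embedding sending `E i j` to `E i j` (upper left block);
* `GTalg n`: the subalgebra `Γ` of `U n` generated by the centers of the `U m`, `1 ≤ m ≤ n`;
* `J lam`: the left ideal of `U n` generated by the `E i j` (`i < j`) and the `E i i - lam i`;
  `Verma lam = U n ⧸ J lam`.
-/

namespace Pool.Agent.Results.MP_b5066f_al.GTDegreeOfVerma

open Pool.Agent.J4H84.GT

/-- The Gelfand-Tsetlin algebra `Γ` of `gl(n)`, as a ring (the subalgebra `GTalg n` of `U n`). -/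
def Gam (n : ℕ) : Type := GTalg n

noncomputable instance (n : ℕ) : Ring (Gam n) := (inferInstance : Ring (GTalg n))

/-- The Verma module `M(lam) = U(gl(n)) ⧸ J lam`. -/
def M {n : ℕ} (lam : Fin n → ℂ) : Type := Verma lam

noncomputable instance {n : ℕ} (lam : Fin n → ℂ) : AddCommGroup (M lam) :=
  (inferInstance : AddCommGroup (Verma lam))

noncomputable instance {n : ℕ} (lam : Fin n → ℂ) : Module ℂ (M lam) :=
  (inferInstance : Module ℂ (Verma lam))

/-- The action of an element of `Γ ⊆ U(gl(n))` on `M(lam)`. -/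
noncomputable def act {n : ℕ} (lam : Fin n → ℂ) (g : Gam n) (v : M lam) : M lam :=
  (show U n from (show GTalg n from g).val) • (show Verma lam from v)

/-- The set `{v ∈ M(lam) : 𝔪^k v = 0 for some k}`: every product of `k` elements of `𝔪`
kills `v`. -/
def genCarrier {n : ℕ} (lam : Fin n → ℂ) (𝔪 : Ideal (Gam n)) : Set (M lam) :=
  {v | ∃ k : ℕ, ∀ l : List (Gam n), l.length = k → (∀ a ∈ l, a ∈ 𝔪) → act lam l.prod v = 0}

theorem exists_L {n : ℕ} (lam : Fin n → ℂ) : ∃ L : ℕ → ℂ, (fun i : Fin n => L i) = lam :=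
  ⟨fun i => if h : i < n then lam ⟨i, h⟩ else 0, by funext i; simp⟩

theorem gen_zero {n : ℕ} (lam : Fin n → ℂ) (𝔪 : Ideal (Gam n)) : (0 : M lam) ∈ genCarrier lam 𝔪 := by
  obtain ⟨L, rfl⟩ := exists_L lam
  exact (genSub (actG n L) ((show Ideal (GTalg n) from 𝔪) : Set (GTalg n))).zero_mem

theorem gen_add {n : ℕ} (lam : Fin n → ℂ) (𝔪 : Ideal (Gam n)) {x y : M lam}
    (hx : x ∈ genCarrier lam 𝔪) (hy : y ∈ genCarrier lam 𝔪) : x + y ∈ genCarrier lam 𝔪 := by
  obtain ⟨L, rfl⟩ := exists_L lam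
  exact (genSub (actG n L) ((show Ideal (GTalg n) from 𝔪) : Set (GTalg n))).add_mem hx hy

theorem gen_smul {n : ℕ} (lam : Fin n → ℂ) (𝔪 : Ideal (Gam n)) (c : ℂ) {x : M lam}
    (hx : x ∈ genCarrier lam 𝔪) : c • x ∈ genCarrier lam 𝔪 := by
  obtain ⟨L, rfl⟩ := exists_L lam
  exact (genSub (actG n L) ((show Ideal (GTalg n) from 𝔪) : Set (GTalg n))).smul_mem c hx

/-- The subspace `M_𝔪` of `M = M(lam)`. -/
noncomputable def genSpace {n : ℕ} (lam : Fin n → ℂ) (𝔪 : Ideal (Gam n)) : Submodule ℂ (M lam) where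
  carrier := genCarrier lam 𝔪
  zero_mem' := gen_zero lam 𝔪
  add_mem' := gen_add lam 𝔪
  smul_mem' := gen_smul lam 𝔪

/-- The set of the dimensions of the `M_𝔪`, `𝔪` a maximal ideal of `Γ`. -/
def dims {n : ℕ} (lam : Fin n → ℂ) : Set Cardinal :=
  {d | ∃ 𝔪 : Ideal (Gam n), 𝔪.IsMaximal ∧ d = Module.rank ℂ (genSpace lam 𝔪)}

/-- The Gelfand-Tsetlin degree of `M(lam)`: the supremum of the dimensions of the `M_𝔪`. -/
noncomputable def GTdeg {n : ℕ} (lam : Fin n → ℂ) : Cardinal := sSup (dims lam)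

/-- The weight `-ρ = ((1-n)/2, (3-n)/2, …, (n-1)/2)` of `gl(n)` (coordinates indexed by
`0, …, n-1`). -/
noncomputable def negRho (n : ℕ) : Fin n → ℂ := fun i => (i : ℂ) - ((n : ℂ) - 1) / 2

/-- The number `(n-1)! (n-2)! ⋯ 1!`. -/
def prodFact (n : ℕ) : ℕ := ∏ k ∈ Finset.Ico 1 n, k.factorial

/-- upper bound for all weights -/
theorem upper {n : ℕ} (lam : Fin n → ℂ) (𝔪 : Ideal (Gam n)) (h : 𝔪.IsMaximal) :
    Module.rank ℂ (genSpace lam 𝔪) ≤ (prodFact n : Cardinal) := by
  obtain ⟨L, rfl⟩ := exists_L lam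
  exact rank_le n L (show Ideal (GTalg n) from 𝔪) h

/-- the value for weights with integral differences -/
theorem greatest {n : ℕ} (hn : 1 ≤ n) (lam : Fin n → ℂ)
    (hint : ∀ i j, ∃ m : ℤ, lam i - lam j = m) :
    IsGreatest (dims lam) (prodFact n : Cardinal) := by
  refine ⟨?_, ?_⟩
  · -- shifted entries
    have h0 : ∀ i : Fin n, ∃ m : ℤ, lam i - (i : ℕ) - lam ⟨0, hn⟩ = m := by
      intro i
      obtain ⟨m, hm⟩ := hint i ⟨0, hn⟩
      refine ⟨m - (i : ℕ), ?_⟩
      push_cast
      linear_combination hm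
    choose m hm using h0
    obtain ⟨s, hs⟩ : ∃ s : ℕ, ∀ i, |m i| ≤ (s : ℤ) := by
      refine ⟨∑ i, (m i).natAbs, fun i => ?_⟩
      rw [Int.abs_eq_natAbs]
      exact_mod_cast Finset.single_le_sum (f := fun i => (m i).natAbs)
        (fun _ _ => Nat.zero_le _) (Finset.mem_univ i)
    let N : ℕ → ℕ := fun i => if h : i < n then ((s : ℤ) - m ⟨i, h⟩).toNat else 0
    have hN : ∀ i : Fin n, ((N i : ℕ) : ℂ) = (s : ℂ) - m i := by
      intro i
      have h1 : N i = ((s : ℤ) - m i).toNat := by simp [N]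
      have h2 : (0 : ℤ) ≤ (s : ℤ) - m i := by
        have := (abs_le.1 (hs i)).2
        omega
      have h3 : (((s : ℤ) - m i).toNat : ℤ) = (s : ℤ) - m i := Int.toNat_of_nonneg h2
      rw [h1]
      have h4 : ((((s : ℤ) - m i).toNat : ℤ) : ℂ) = (((s : ℤ) - m i : ℤ) : ℂ) := by rw [h3]
      push_cast at h4
      exact_mod_cast h4
    have hB : ∀ i, N i ≤ 2 * s := by
      intro i
      by_cases h : i < n
      · have h1 : N i = ((s : ℤ) - m ⟨i, h⟩).toNat := by simp [N, h]
        have h2 := (abs_le.1 (hs ⟨i, h⟩)).1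
        rw [h1]
        omega
      · have h1 : N i = 0 := by simp [N, h]
        omega
    obtain ⟨L, rfl⟩ := exists_L lam
    obtain ⟨I, hI, hr⟩ := exists_rank n L (L 0 + s) N (2 * s) hB (by
      intro i
      rw [hN i]
      have := hm i
      linear_combination this)
    exact ⟨I, hI, hr⟩
  · rintro _ ⟨𝔪, h, rfl⟩
    exact upper lam 𝔪 h

theorem dims_negRho (n : ℕ) (hn : 1 ≤ n) :
    IsGreatest (dims (negRho n)) (prodFact n : Cardinal) := by
  apply greatest hn
  intro i j
  refine ⟨(i : ℕ) - (j : ℕ), ?_⟩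
  unfold negRho
  push_cast
  ring

/-- **Main theorem** (full affirmative answer to Q1).  For every `n ≥ 2`:
the algebra `Γ` is commutative; the Gelfand-Tsetlin degree of the Verma module `M(-ρ)` over
`gl(n)` is `∏_{k=1}^{n-1} k!`, and it is attained by some maximal ideal of `Γ`; more generally
the same holds for `M(lam)` for every weight `lam` all of whose differences `lam i - lam j` are
integers; and for every weight `lam` the Gelfand-Tsetlin degree of `M(lam)` is at most this
number. -/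
theorem result (n : ℕ) (hn : 2 ≤ n) :
    (∀ x y : Gam n, x * y = y * x) ∧
    GTdeg (negRho n) = prodFact n ∧ (prodFact n : Cardinal) ∈ dims (negRho n) ∧
    (∀ lam : Fin n → ℂ, (∀ i j, ∃ m : ℤ, lam i - lam j = m) →
      GTdeg lam = prodFact n ∧ (prodFact n : Cardinal) ∈ dims lam) ∧
    (∀ lam : Fin n → ℂ, GTdeg lam ≤ prodFact n) := by
  have h1 := dims_negRho n (by omega)
  refine ⟨GTalg_comm, h1.csSup_eq, h1.1, fun lam h => ?_, fun lam => ?_⟩
  · have h2 := greatest (by omega) lam h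
    exact ⟨h2.csSup_eq, h2.1⟩
  · apply csSup_le'
    rintro _ ⟨𝔪, h, rfl⟩
    exact upper lam 𝔪 h

end Pool.Agent.Results.MP_b5066f_al.GTDegreeOfVerma
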